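import Pool.Agent.Helper69.TPF.St3

/-! TPF module HOP: a Hopf type lemma. -/

set_option autoImplicit false

open scoped commutatorElement

namespace Pool.Agent.Helper2.TPF

open Pool.Agent.Helper69.TPF

open Classical in
theorem cHOP : St_HOP := by
  intro F J _ a ha
  have hsec : ∃ σ : FreeGroup J →* F, ∀ z, a (σ z) = z := by
    choose s hs using ha
    refine ⟨FreeGroup.lift fun j => s (FreeGroup.of j), ?_⟩
    intro z
    have : a.comp (FreeGroup.lift fun j => s (FreeGroup.of j)) = MonoidHom.id (FreeGroup J) := by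
      apply FreeGroup.ext_hom
      intro j
      simp [hs]
    exact DFunLike.congr_fun this z
  obtain ⟨σ, hσ⟩ := hsec
  have hnorm : (⁅a.ker, (⊤ : Subgroup F)⁆).Normal := inferInstance
  let M : Subgroup F := ⁅a.ker, (⊤ : Subgroup F)⁆
  let mk : F →* F ⧸ M := QuotientGroup.mk' M
  have hmkN : ∀ ν, a ν = 1 → ∀ z, mk (z * ν) = mk (ν * z) := by
    intro ν hν z
    have h1 : ⁅ν, z⁆ ∈ M := Subgroup.commutator_mem_commutator (show ν ∈ a.ker from hν) (Subgroup.mem_top z)
    have h2 : mk ⁅ν, z⁆ = 1 := (QuotientGroup.eq_one_iff _).2 h1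
    rw [map_commutatorElement, commutatorElement_eq_one_iff_mul_comm] at h2
    rw [map_mul, map_mul, h2]
  have hr : ∀ z, a (z * (σ (a z))⁻¹) = 1 := by
    intro z
    rw [map_mul, map_inv, hσ, mul_inv_cancel]
  let r : F →* F ⧸ M :=
    { toFun := fun z => mk (z * (σ (a z))⁻¹)
      map_one' := by
        show mk (1 * (σ (a 1))⁻¹) = 1
        simp
      map_mul' := by
        intro z z'
        show mk (z * z' * (σ (a (z * z')))⁻¹) = mk (z * (σ (a z))⁻¹) * mk (z' * (σ (a z'))⁻¹)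
        have e1 : z * z' * (σ (a (z * z')))⁻¹
            = z * ((z' * (σ (a z'))⁻¹) * (σ (a z))⁻¹) := by
          rw [map_mul, map_mul, mul_inv_rev]
          group
        rw [e1, map_mul, ← hmkN _ (hr z') ((σ (a z))⁻¹), ← map_mul, ← map_mul]
        congr 1
        group }
  have hle : ⁅(⊤ : Subgroup F), (⊤ : Subgroup F)⁆ ≤ r.ker := by
    rw [Subgroup.commutator_le]
    intro g₁ _ g₂ _
    show r _ = 1
    rw [map_commutatorElement, commutatorElement_eq_one_iff_mul_comm]
    show mk (g₁ * (σ (a g₁))⁻¹) * mk (g₂ * (σ (a g₂))⁻¹) = mk (g₂ * (σ (a g₂))⁻¹) * mk (g₁ * (σ (a g₁))⁻¹)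
    rw [← map_mul, ← map_mul]
    exact hmkN _ (hr g₂) _
  intro x hx
  obtain ⟨hx1, hx2⟩ := Subgroup.mem_inf.1 hx
  have h1 : r x = 1 := hle hx2
  have h2 : mk (x * (σ (a x))⁻¹) = 1 := h1
  have h3 : a x = 1 := hx1
  rw [h3, map_one, inv_one, mul_one] at h2
  exact (QuotientGroup.eq_one_iff _).1 h2

end Pool.Agent.Helper2.TPF
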