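import Pool.Agent.Helper69.TPF.St1

/-!
# Project TPF, module NRM (norm of `c e + (1 - e)`)
-/

set_option autoImplicit false

namespace Pool.Agent.Helper2.TPF

open Pool.Agent.Helper69.TPF

theorem cNRM : St_NRM := by
  intro E _ _ e he hne
  classical
  have hfin : Module.Finite ℂ (AA E) :=
    Module.Finite.equiv (MonoidAlgebra.coeffLinearEquiv (S := ℂ) (M := E) ℂ).symm
  have hrank : Module.finrank ℂ (AA E) = Nat.card E := by
    rw [(MonoidAlgebra.coeffLinearEquiv (S := ℂ) (M := E) ℂ).finrank_eq,
      Module.finrank_finsupp_self, Nat.card_eq_fintype_card]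
  set P : AA E →ₗ[ℂ] AA E := LinearMap.mulLeft ℂ e with hP
  set W : Submodule ℂ (AA E) := LinearMap.range P with hWd
  have hW : ∀ w ∈ W, e * w = w := by
    rintro w ⟨x, rfl⟩
    show e * (e * x) = e * x
    rw [← mul_assoc, he]
  have hmem : ∀ x, e * x ∈ W := fun x => ⟨x, rfl⟩
  have heW : e ∈ W := ⟨e, he⟩
  refine ⟨Module.finrank ℂ W, ?_, ?_, ?_⟩
  · have : Nontrivial W := ⟨⟨⟨e, heW⟩, 0, fun h => hne (congrArg Subtype.val h)⟩⟩
    exact Module.finrank_pos
  · rw [← hrank]
    exact Submodule.finrank_le W
  · intro c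
    rw [Algebra.norm_apply]
    set f : AA E →ₗ[ℂ] AA E := Algebra.lmul ℂ (AA E) (c • e + (1 - e)) with hf
    have hfx : ∀ x, f x = c • (e * x) + (x - e * x) := by
      intro x
      rw [hf]
      show (c • e + (1 - e)) * x = _
      rw [add_mul, smul_mul_assoc, sub_mul, one_mul]
    have hle : W ≤ W.comap f := by
      intro w hw
      rw [Submodule.mem_comap, hfx, hW w hw, sub_self, add_zero]
      exact W.smul_mem c hw
    rw [LinearMap.det_eq_det_mul_det W f hle]
    have hle' : ∀ x ∈ W, f x ∈ W := fun x hx => hle hx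
    have h1 : f.restrict hle' = c • LinearMap.id := by
      ext w : 1
      apply Subtype.ext
      rw [LinearMap.restrict_apply]
      show f (w : AA E) = c • (w : AA E)
      rw [hfx, hW _ w.2, sub_self, add_zero]
    have h2 : W.mapQ W f hle = LinearMap.id := by
      refine Submodule.linearMap_qext _ (LinearMap.ext fun x => ?_)
      show Submodule.Quotient.mk (f x) = Submodule.Quotient.mk x
      rw [Submodule.Quotient.eq, hfx]
      have e3 : c • (e * x) + (x - e * x) - x = (c - 1) • (e * x) := by
        rw [sub_smul, one_smul]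
        abel
      rw [e3]
      exact W.smul_mem _ (hmem x)
    rw [h1, h2, LinearMap.det_smul, LinearMap.det_id, LinearMap.det_id, mul_one, mul_one]

end Pool.Agent.Helper2.TPF
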