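import Pool.Agent.Helper69.TPF.St3

/-! TPF module PAR: the central pairing. -/

set_option autoImplicit false

open scoped commutatorElement

namespace Pool.Agent.Helper2.TPF

open Pool.Agent.Helper69.TPF

theorem par_mulR {Γ : Type} [Group Γ] (a b b' : Γ) (h : ⁅a, b'⁆ ∈ Subgroup.center Γ) :
    ⁅a, b * b'⁆ = ⁅a, b⁆ * ⁅a, b'⁆ := by
  have h1 : ⁅a, b * b'⁆ = ⁅a, b⁆ * (b * ⁅a, b'⁆ * b⁻¹) := by
    simp only [commutatorElement_def, mul_inv_rev]
    group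
  have h2 : b * ⁅a, b'⁆ = ⁅a, b'⁆ * b := (Subgroup.mem_center_iff.1 h) b
  rw [h1, h2, mul_inv_cancel_right]

theorem par_mulL {Γ : Type} [Group Γ] (a a' b : Γ) (h : ⁅a', b⁆ ∈ Subgroup.center Γ) :
    ⁅a * a', b⁆ = ⁅a, b⁆ * ⁅a', b⁆ := by
  have h1 : ⁅a * a', b⁆ = (a * ⁅a', b⁆ * a⁻¹) * ⁅a, b⁆ := by
    simp only [commutatorElement_def, mul_inv_rev]
    group
  have h2 : a * ⁅a', b⁆ = ⁅a', b⁆ * a := (Subgroup.mem_center_iff.1 h) a
  have h3 : ⁅a, b⁆ * ⁅a', b⁆ = ⁅a', b⁆ * ⁅a, b⁆ := (Subgroup.mem_center_iff.1 h) _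
  rw [h1, h2, mul_inv_cancel_right, h3]

open Classical in
theorem cPAR : St_PAR := by
  intro F Γ _ _ r1 r2 N1 _ hc
  have hR : ∀ ν ∈ N1, ∀ y y', ⁅r1 ν, r2 (y * y')⁆ = ⁅r1 ν, r2 y⁆ * ⁅r1 ν, r2 y'⁆ := by
    intro ν hν y y'
    rw [map_mul]
    exact par_mulR _ _ _ (hc ν hν y')
  have hL : ∀ ν ∈ N1, ∀ ν' ∈ N1, ∀ y, ⁅r1 (ν * ν'), r2 y⁆ = ⁅r1 ν, r2 y⁆ * ⁅r1 ν', r2 y⁆ := by
    intro ν _ ν' hν' y
    rw [map_mul]
    exact par_mulL _ _ _ (hc ν' hν' y)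
  refine ⟨hR, hL, ?_, ?_⟩
  · intro c hcm y
    -- the homomorphism from N1 to the centre
    let φ : N1 →* Subgroup.center Γ :=
      { toFun := fun ν => ⟨⁅r1 (ν : F), r2 y⁆, hc ν ν.2 y⟩
        map_one' := by
          apply Subtype.ext
          show ⁅r1 ((1 : N1) : F), r2 y⁆ = 1
          rw [Subgroup.coe_one, map_one]
          simp
        map_mul' := by
          intro ν ν'
          apply Subtype.ext
          show ⁅r1 ((ν * ν' : N1) : F), r2 y⁆ = ⁅r1 (ν : F), r2 y⁆ * ⁅r1 (ν' : F), r2 y⁆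
          rw [Subgroup.coe_mul]
          exact hL ν ν.2 ν' ν'.2 y }
    have hle : ⁅N1, N1⁆ ≤ (φ.ker).map N1.subtype := by
      rw [Subgroup.commutator_le]
      intro g₁ hg₁ g₂ hg₂
      refine ⟨⁅(⟨g₁, hg₁⟩ : N1), (⟨g₂, hg₂⟩ : N1)⁆, ?_, rfl⟩
      show φ _ = 1
      rw [map_commutatorElement, commutatorElement_eq_one_iff_mul_comm]
      apply Subtype.ext
      exact (Subgroup.mem_center_iff.1 (φ ⟨g₂, hg₂⟩).2 _)
    obtain ⟨d, hd, hdc⟩ := hle hcm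
    have h1 : φ d = 1 := hd
    have h2 : ((φ d : Subgroup.center Γ) : Γ) = 1 := by rw [h1]; rfl
    have h3 : (d : F) = c := hdc
    rw [← h3]
    exact h2
  · intro ν hν c hcm
    let φ : F →* Subgroup.center Γ :=
      { toFun := fun y => ⟨⁅r1 ν, r2 y⁆, hc ν hν y⟩
        map_one' := by
          apply Subtype.ext
          show ⁅r1 ν, r2 1⁆ = 1
          rw [map_one]
          simp
        map_mul' := by
          intro y y'
          apply Subtype.ext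
          exact hR ν hν y y' }
    have hle : ⁅(⊤ : Subgroup F), (⊤ : Subgroup F)⁆ ≤ φ.ker := by
      rw [Subgroup.commutator_le]
      intro g₁ _ g₂ _
      show φ _ = 1
      rw [map_commutatorElement, commutatorElement_eq_one_iff_mul_comm]
      apply Subtype.ext
      exact (Subgroup.mem_center_iff.1 (φ g₂).2 _)
    have h1 : φ c = 1 := hle hcm
    have h2 : ((φ c : Subgroup.center Γ) : Γ) = 1 := by rw [h1]; rfl
    exact h2

end Pool.Agent.Helper2.TPF
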