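import Pool.Agent.Helper69.TPF.St1

/-!
# Project TPF, module VAN
-/

set_option autoImplicit false

open scoped commutatorElement ComplexConjugate

namespace Pool.Agent.Helper2.TPF

open Pool.Agent.Helper69.TPF

section

variable {E G : Type} [Group E] [Group G] [Fintype E]

open Classical in
/-- The sum of the conjugates `x z x⁻¹` with `π x = a`. -/
private noncomputable def TT (π : E →* G) (a : G) (z : E) : AA E :=
  ∑ x : E, if π x = a then MonoidAlgebra.single (x * z * x⁻¹) 1 else 0

private theorem TT_cc (π : E →* G) (a : G) (z : E) : CC π (a * π z * a⁻¹) (TT π a z) := by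
  classical
  constructor
  · intro w hw
    unfold TT at hw
    rw [MonoidAlgebra.coeff_sum, Finsupp.finsetSum_apply] at hw
    obtain ⟨x, -, hx⟩ := Finset.exists_ne_zero_of_sum_ne_zero hw
    by_cases hπ : π x = a
    · rw [if_pos hπ, MonoidAlgebra.coeff_single, Finsupp.single_apply] at hx
      by_cases hxw : x * z * x⁻¹ = w
      · rw [← hxw, map_mul, map_mul, map_inv, hπ]
      · rw [if_neg hxw] at hx
        exact absurd rfl hx
    · rw [if_neg hπ] at hx
      exact absurd rfl hx
  · intro v hv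
    have e1 : MonoidAlgebra.single v 1 * TT π a z =
        ∑ x : E, if π x = a then (MonoidAlgebra.single (v * (x * z * x⁻¹)) 1 : AA E) else 0 := by
      unfold TT
      rw [Finset.mul_sum]
      refine Finset.sum_congr rfl fun x _ => ?_
      by_cases h : π x = a
      · rw [if_pos h, if_pos h, MonoidAlgebra.single_mul_single, mul_one]
      · rw [if_neg h, if_neg h, mul_zero]
    have e2 : TT π a z * MonoidAlgebra.single v 1 =
        ∑ x : E, if π x = a then (MonoidAlgebra.single (x * z * x⁻¹ * v) 1 : AA E) else 0 := by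
      unfold TT
      rw [Finset.sum_mul]
      refine Finset.sum_congr rfl fun x _ => ?_
      by_cases h : π x = a
      · rw [if_pos h, if_pos h, MonoidAlgebra.single_mul_single, mul_one]
      · rw [if_neg h, if_neg h, zero_mul]
    rw [e1, e2, ← Equiv.sum_comp (Equiv.mulLeft v)
      (fun x => if π x = a then (MonoidAlgebra.single (x * z * x⁻¹ * v) 1 : AA E) else 0)]
    refine Finset.sum_congr rfl fun x _ => ?_
    have h1 : π (v * x) = π x := by rw [map_mul, hv, one_mul]
    have h2 : v * x * z * (v * x)⁻¹ * v = v * (x * z * x⁻¹) := by group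
    show _ = if π (v * x) = a then
      (MonoidAlgebra.single (v * x * z * (v * x)⁻¹ * v) 1 : AA E) else 0
    rw [h1, h2]

private theorem Cab_left (π : E →* G) (a b : G) [DecidableEq G] : Cab π a b =
    ∑ y : E, if π y = b then TT π a y * MonoidAlgebra.single y⁻¹ 1 else 0 := by
  classical
  unfold Cab
  rw [Finset.sum_comm]
  refine Finset.sum_congr rfl fun y _ => ?_
  by_cases hy : π y = b
  · rw [if_pos hy]
    unfold TT
    rw [Finset.sum_mul]
    refine Finset.sum_congr rfl fun x _ => ?_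
    by_cases hx : π x = a
    · rw [if_pos ⟨hx, hy⟩, if_pos hx, MonoidAlgebra.single_mul_single, mul_one]
      rfl
    · rw [if_neg fun h => hx h.1, if_neg hx, zero_mul]
  · rw [if_neg hy]
    exact Finset.sum_eq_zero fun x _ => if_neg fun h => hy h.2

private theorem Cab_right (π : E →* G) (a b : G) [DecidableEq G] : Cab π a b =
    ∑ x : E, if π x = a then MonoidAlgebra.single x 1 * TT π b x⁻¹ else 0 := by
  classical
  unfold Cab
  refine Finset.sum_congr rfl fun x _ => ?_
  by_cases hx : π x = a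
  · rw [if_pos hx]
    unfold TT
    rw [Finset.mul_sum]
    refine Finset.sum_congr rfl fun y _ => ?_
    by_cases hy : π y = b
    · rw [if_pos ⟨hx, hy⟩, if_pos hy, MonoidAlgebra.single_mul_single, mul_one]
      congr 1
      rw [commutatorElement_def]
      group
    · rw [if_neg fun h => hy h.2, if_neg hy, mul_zero]
  · rw [if_neg hx]
    exact Finset.sum_eq_zero fun y _ => if_neg fun h => hx h.1

end

theorem cVAN (_adj : St_ADJ) (grd : St_GRD) (inv : St_INV) (cab : St_CAB) : St_VAN := by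
  intro E G _ _ _ π e hp a b hne
  classical
  obtain ⟨-, -, -, -, -, g6, g7, -⟩ := grd E G π
  have he := hp.1
  have hC := cab E G π a b
  have hI := (inv E G π e hp).2.2
  -- products
  have hmul : ∀ h h' (w w' : AA E), CC π h w → e * w ≠ 0 → CC π h' w' → e * w' ≠ 0 →
      ∃ z, CC π (h * h') z ∧ e * z ≠ 0 := by
    intro h h' w w' c1 n1 c2 n2
    refine ⟨w * w', g6 h h' w w' c1 c2, fun h0 => n2 ?_⟩
    obtain ⟨⟨u, -, hu⟩, -⟩ := hI h w c1 n1
    have h1 : u * (e * w) = e := hu.2.2.2.2.2
    calc e * w' = u * (e * w) * w' := by rw [h1]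
      _ = u * (e * (w * w')) := by rw [mul_assoc, mul_assoc]
      _ = 0 := by rw [h0, mul_zero]
  have hinv : ∀ h (w : AA E), CC π h w → e * w ≠ 0 → ∃ z, CC π h⁻¹ z ∧ e * z ≠ 0 := by
    intro h w c1 n1
    obtain ⟨⟨u, cu, hu⟩, -⟩ := hI h w c1 n1
    refine ⟨u, cu, fun h0 => hp.2.2.1 ?_⟩
    have h1 : e * w * u = e := hu.2.2.2.2.1
    have h2 : e * u = u := hu.2.2.1
    rw [h2] at h0
    rw [← h1, h0, mul_zero]
  -- first element
  have hA : ∃ w, CC π (a * b * a⁻¹) w ∧ e * w ≠ 0 := by
    rw [Cab_left, Finset.mul_sum] at hne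
    obtain ⟨y, -, hy⟩ := Finset.exists_ne_zero_of_sum_ne_zero hne
    by_cases hπ : π y = b
    · rw [if_pos hπ] at hy
      refine ⟨TT π a y, ?_, fun h0 => hy ?_⟩
      · have := TT_cc π a y
        rw [hπ] at this
        exact this
      · rw [← mul_assoc, h0, zero_mul]
    · rw [if_neg hπ, mul_zero] at hy
      exact absurd rfl hy
  have hB : ∃ w, CC π (b * a⁻¹ * b⁻¹) w ∧ e * w ≠ 0 := by
    have hne' : Cab π a b * e ≠ 0 := by
      rw [← g7 _ e (Cab π a b) he hC]
      exact hne
    rw [Cab_right, Finset.sum_mul] at hne'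
    obtain ⟨x, -, hx⟩ := Finset.exists_ne_zero_of_sum_ne_zero hne'
    by_cases hπ : π x = a
    · rw [if_pos hπ] at hx
      have hc : CC π (b * a⁻¹ * b⁻¹) (TT π b x⁻¹) := by
        have := TT_cc π b x⁻¹
        rw [map_inv, hπ] at this
        exact this
      refine ⟨TT π b x⁻¹, hc, fun h0 => hx ?_⟩
      rw [mul_assoc, ← g7 _ e (TT π b x⁻¹) he hc, h0, mul_zero]
    · rw [if_neg hπ, zero_mul] at hx
      exact absurd rfl hx
  obtain ⟨w1, c1, n1⟩ := hA
  obtain ⟨w2, c2, n2⟩ := hB
  obtain ⟨w2', c2', n2'⟩ := hinv _ w2 c2 n2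
  obtain ⟨w3, c3, n3⟩ := hinv _ (Cab π a b) hC hne
  constructor
  · obtain ⟨z, cz, nz⟩ := hmul _ _ (Cab π a b) w2' hC hne c2' n2'
    refine ⟨z, ?_, nz⟩
    have e1 : ⁅a, b⁆ * (b * a⁻¹ * b⁻¹)⁻¹ = a := by
      rw [commutatorElement_def]
      group
    rw [e1] at cz
    exact cz
  · obtain ⟨z, cz, nz⟩ := hmul _ _ w3 w1 c3 n3 c1 n1
    refine ⟨z, ?_, nz⟩
    have e1 : ⁅a, b⁆⁻¹ * (a * b * a⁻¹) = b := by
      rw [commutatorElement_def]
      group
    rw [e1] at cz
    exact cz

end Pool.Agent.Helper2.TPF
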